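import Pool.Agent.Helper35.BM.Fischer

set_option autoImplicit false

/-! Project BM (MP_872606_gt): the main inequality for rank 3 arrangements of `c`-dimensional
subspaces. -/

open Matrix Finset
open scoped Matrix

namespace Pool.Agent.Helper35.BM

variable {ι : Type*} [Fintype ι] [DecidableEq ι]

/-- every pair of distinct elements lies in exactly one block -/
structure LinSp (P : Finset (Finset ι)) : Prop where
  two : ∀ p ∈ P, 2 ≤ p.card
  ex : ∀ i j, i ≠ j → ∃ p ∈ P, i ∈ p ∧ j ∈ p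
  uniq : ∀ p ∈ P, ∀ q ∈ P, ∀ i j, i ≠ j → i ∈ p → j ∈ p → i ∈ q → j ∈ q → p = q

omit [Fintype ι] in
theorem sum_sum_eq (p : Finset ι) (f : ι → ι → ℝ) :
    ∑ i ∈ p, ∑ j ∈ p, f i j = ∑ i ∈ p, f i i + ∑ q ∈ p.offDiag, f q.1 q.2 := by
  rw [← Finset.sum_product', ← Finset.diag_union_offDiag,
    Finset.sum_union (Finset.disjoint_diag_offDiag p)]
  congr 1
  rw [← Finset.sum_diag p (fun q => f q.1 q.2)]

theorem LinSp.sum_offDiag {P : Finset (Finset ι)} (h : LinSp P) (f : ι × ι → ℝ) :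
    ∑ q ∈ (univ : Finset ι).offDiag, f q = ∑ p ∈ P, ∑ q ∈ p.offDiag, f q := by
  rw [← Finset.sum_biUnion]
  · refine Finset.sum_congr ?_ fun _ _ => rfl
    ext ⟨i, j⟩
    simp only [mem_offDiag, mem_univ, true_and, mem_biUnion]
    constructor
    · intro hij
      obtain ⟨p, hp, hi, hj⟩ := h.ex i j hij
      exact ⟨p, hp, hi, hj, hij⟩
    · rintro ⟨p, -, -, -, hij⟩
      exact hij
  · intro p hp q hq hpq
    rw [Function.onFun, Finset.disjoint_left]
    rintro ⟨i, j⟩ h1 h2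
    rw [mem_offDiag] at h1 h2
    exact hpq (h.uniq p hp q hq i j h1.2.2 h1.1 h1.2.1 h2.1 h2.2.1)

/-- the greedy basis -/
theorem LinSp.greedy {P : Finset (Finset ι)} (h : LinSp P) {a : ι → ℝ} (u : ι → ℝ)
    (ha : ∀ i, 0 ≤ a i) (hA : 0 < ∑ i, a i) (h1 : ∀ i, 3 * a i ≤ ∑ i, a i)
    (h2 : ∀ p ∈ P, 3 * ∑ i ∈ p, a i ≤ 2 * ∑ i, a i) :
    ∃ p ∈ P, ∃ i ∈ p, ∃ j ∈ p, i ≠ j ∧ ∃ k, k ∉ p ∧
      (∑ i, a i) / 3 * (u i + u j + u k) ≤ ∑ i, a i * u i := by
  set A := ∑ i, a i with hAdef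
  have hne : (univ : Finset ι).Nonempty := by
    by_contra hcon
    rw [not_nonempty_iff_eq_empty] at hcon
    rw [hAdef, hcon, sum_empty] at hA
    exact lt_irrefl _ hA
  obtain ⟨i, -, hi⟩ := exists_min_image univ u hne
  have hne2 : (univ.erase i).Nonempty := by
    by_contra hcon
    rw [not_nonempty_iff_eq_empty] at hcon
    have h3 := Finset.sum_erase_add univ a (mem_univ i)
    rw [hcon, sum_empty, ← hAdef] at h3
    have := h1 i
    linarith
  obtain ⟨j, hj0, hj⟩ := exists_min_image (univ.erase i) u hne2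
  have hij : i ≠ j := fun h => (mem_erase.1 hj0).1 h.symm
  obtain ⟨p, hp, hip, hjp⟩ := h.ex i j hij
  have hsplit : ∑ i ∈ p, a i + ∑ i ∈ univ \ p, a i = A := by
    rw [add_comm]
    exact Finset.sum_sdiff (subset_univ p)
  have hne3 : (univ \ p).Nonempty := by
    by_contra hcon
    rw [not_nonempty_iff_eq_empty] at hcon
    rw [hcon, sum_empty] at hsplit
    have := h2 p hp
    linarith
  obtain ⟨k, hk0, hk⟩ := exists_min_image (univ \ p) u hne3
  have hkp : k ∉ p := (mem_sdiff.1 hk0).2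
  refine ⟨p, hp, i, hip, j, hjp, hij, k, hkp, ?_⟩
  have e1 : ∑ l, a l * u l = a i * u i + ∑ l ∈ p.erase i, a l * u l
      + ∑ l ∈ univ \ p, a l * u l := by
    rw [← Finset.sum_sdiff (subset_univ p), ← Finset.sum_erase_add p _ hip]
    ring
  have e2 : (∑ l ∈ p.erase i, a l) * u j ≤ ∑ l ∈ p.erase i, a l * u l := by
    rw [Finset.sum_mul]
    refine Finset.sum_le_sum fun l hl => ?_
    exact mul_le_mul_of_nonneg_left (hj l (mem_erase.2 ⟨(mem_erase.1 hl).1, mem_univ _⟩)) (ha l)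
  have e3 : (∑ l ∈ univ \ p, a l) * u k ≤ ∑ l ∈ univ \ p, a l * u l := by
    rw [Finset.sum_mul]
    exact Finset.sum_le_sum fun l hl => mul_le_mul_of_nonneg_left (hk l hl) (ha l)
  have e4 : ∑ l ∈ p.erase i, a l = ∑ l ∈ p, a l - a i := by
    rw [← Finset.sum_erase_add p _ hip]; ring
  have e5 : ∑ l ∈ univ \ p, a l = A - ∑ l ∈ p, a l := by linarith
  rw [e4] at e2
  rw [e5] at e3
  have f1 : u i ≤ u j := hi j (mem_univ _)
  have f2 : u j ≤ u k := hj k (mem_erase.2 ⟨fun h => hkp (h ▸ hip), mem_univ _⟩)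
  have f3 := mul_nonneg (sub_nonneg.2 (h1 i)) (sub_nonneg.2 f1)
  have f4 := mul_nonneg (sub_nonneg.2 (h2 p hp)) (sub_nonneg.2 f2)
  rw [e1]
  nlinarith

/-- three lines with positive weights not through a point -/
theorem LinSp.exists_triple {P : Finset (Finset ι)} (h : LinSp P) {a : ι → ℝ}
    (_ha : ∀ i, 0 ≤ a i) (hA : 0 < ∑ i, a i) (h1 : ∀ i, 3 * a i ≤ ∑ i, a i)
    (h2 : ∀ p ∈ P, 3 * ∑ i ∈ p, a i ≤ 2 * ∑ i, a i) :
    ∃ p ∈ P, ∃ i ∈ p, ∃ j ∈ p, i ≠ j ∧ ∃ k, k ∉ p ∧ 0 < a i ∧ 0 < a j ∧ 0 < a k := by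
  obtain ⟨i, -, hi⟩ : ∃ i ∈ univ, 0 < a i := Finset.exists_lt_of_sum_lt (by simpa using hA)
  have h3 : 0 < ∑ l ∈ univ.erase i, a l := by
    have h3 := Finset.sum_erase_add univ a (mem_univ i)
    have := h1 i
    linarith
  obtain ⟨j, hj0, hj⟩ : ∃ j ∈ univ.erase i, 0 < a j :=
    Finset.exists_lt_of_sum_lt (by simpa using h3)
  have hij : i ≠ j := fun h => (mem_erase.1 hj0).1 h.symm
  obtain ⟨p, hp, hip, hjp⟩ := h.ex i j hij
  have h4 : 0 < ∑ l ∈ univ \ p, a l := by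
    have h3 := Finset.sum_sdiff (f := a) (subset_univ p)
    have := h2 p hp
    linarith
  obtain ⟨k, hk0, hk⟩ : ∃ k ∈ univ \ p, 0 < a k :=
    Finset.exists_lt_of_sum_lt (by simpa using h4)
  exact ⟨p, hp, i, hip, j, hjp, hij, k, (mem_sdiff.1 hk0).2, hi, hj, hk⟩

variable {n : Type*} [Fintype n] [DecidableEq n]

theorem eq_zero_of_conjTranspose_mulVec {k : Type*} [Fintype k] [DecidableEq k]
    {C : Matrix n k ℝ} (hcard : Fintype.card n = Fintype.card k)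
    (hC : Function.Injective C.mulVec) {x : n → ℝ} (hx : Cᴴ *ᵥ x = 0) : x = 0 := by
  have hsurj : Function.Surjective C.mulVecLin := by
    refine (LinearMap.injective_iff_surjective_of_finrank_eq_finrank ?_).1 hC
    simp [hcard]
  obtain ⟨y, hy⟩ := hsurj x
  rw [Matrix.mulVecLin_apply] at hy
  have h2 : Cᵀ *ᵥ x = 0 := by
    have : Cᵀ = Cᴴ := by ext i j; simp
    rw [this, hx]
  have h1 : x ⬝ᵥ x = 0 := by
    calc x ⬝ᵥ x = x ⬝ᵥ (C *ᵥ y) := by rw [hy]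
      _ = (Cᵀ *ᵥ x) ⬝ᵥ y := by rw [dotProduct_mulVec, ← mulVec_transpose]
      _ = 0 := by rw [h2, zero_dotProduct]
  exact dotProduct_self_eq_zero.1 h1

/-- arrangements of `c`-dimensional subspaces given by matrices -/
structure MatArr (c : ℕ) (B : ι → Matrix n (Fin c) ℝ) (P : Finset (Finset ι)) : Prop where
  c0 : 0 < c
  card : Fintype.card n = 3 * c
  lsp : LinSp P
  inj : ∀ i, Function.Injective (B i).mulVec
  inj2 : ∀ i j, i ≠ j → Function.Injective (fromCols (B i) (B j)).mulVec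
  lin : ∀ p ∈ P, ∀ i ∈ p, ∀ j ∈ p, i ≠ j → ∀ k ∈ p,
    ∃ R : Matrix (Fin c ⊕ Fin c) (Fin c) ℝ, B k = fromCols (B i) (B j) * R
  tri : ∀ p ∈ P, ∀ i ∈ p, ∀ j ∈ p, i ≠ j → ∀ k, k ∉ p →
    Function.Injective (fromCols (fromCols (B i) (B j)) (B k)).mulVec

variable {c : ℕ} {B : ι → Matrix n (Fin c) ℝ} {P : Finset (Finset ι)}

theorem MatArr.KN_lower (h : MatArr c B P) {a : ι → ℝ}
    (ha : ∀ i, 0 ≤ a i) (hA : 0 < ∑ i, a i) (h1 : ∀ i, 3 * a i ≤ ∑ i, a i)
    (h2 : ∀ p ∈ P, 3 * ∑ i ∈ p, a i ≤ 2 * ∑ i, a i) :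
    ∃ C : ℝ, ∀ g : Matrix n n ℝ, g.PosDef → C ≤ KN B a g := by
  have hK : ∀ t : ι × ι × ι, ∃ K : ℝ,
      Function.Injective (fromCols (fromCols (B t.1) (B t.2.1)) (B t.2.2)).mulVec →
      ∀ g : Matrix n n ℝ, g.PosDef → Real.log g.det + K ≤
        Real.log ((B t.1)ᴴ * g * B t.1).det + Real.log ((B t.2.1)ᴴ * g * B t.2.1).det
          + Real.log ((B t.2.2)ᴴ * g * B t.2.2).det := by
    intro t
    by_cases ht : Function.Injective (fromCols (fromCols (B t.1) (B t.2.1)) (B t.2.2)).mulVec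
    · obtain ⟨K, hK⟩ := fischer_three (by rw [h.card, Fintype.card_fin]) ht
      exact ⟨K, fun _ => hK⟩
    · exact ⟨0, fun h => absurd h ht⟩
  choose K hK using hK
  set K0 : ℝ := -∑ t, |K t| with hK0
  have hKle : ∀ t, K0 ≤ K t := by
    intro t
    have h3 : |K t| ≤ ∑ t, |K t| :=
      Finset.single_le_sum (f := fun t => |K t|) (fun t _ => abs_nonneg _) (mem_univ t)
    have h4 := neg_abs_le (K t)
    rw [hK0]
    linarith
  refine ⟨(∑ i, a i) / 3 * K0, fun g hg => ?_⟩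
  obtain ⟨p, hp, i, hi, j, hj, hij, k, hk, hle⟩ :=
    h.lsp.greedy (fun i => Real.log ((B i)ᴴ * g * B i).det) ha hA h1 h2
  have h3 := hK (i, j, k) (h.tri p hp i hi j hj hij k hk) g hg
  have h4 := hKle (i, j, k)
  have h5 : (∑ i, a i) / 3 * (Real.log g.det + K0) ≤ (∑ i, a i) / 3 *
      (Real.log ((B i)ᴴ * g * B i).det + Real.log ((B j)ᴴ * g * B j).det
          + Real.log ((B k)ᴴ * g * B k).det) := by
    apply mul_le_mul_of_nonneg_left _ (by positivity)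
    linarith
  unfold KN
  linarith

theorem MatArr.span (h : MatArr c B P) {a : ι → ℝ}
    (ha : ∀ i, 0 ≤ a i) (hA : 0 < ∑ i, a i) (h1 : ∀ i, 3 * a i ≤ ∑ i, a i)
    (h2 : ∀ p ∈ P, 3 * ∑ i ∈ p, a i ≤ 2 * ∑ i, a i) (x : n → ℝ)
    (hx : ∀ i, 0 < a i → (B i)ᴴ *ᵥ x = 0) : x = 0 := by
  obtain ⟨p, hp, i, hi, j, hj, hij, k, hk, hai, haj, hak⟩ := h.lsp.exists_triple ha hA h1 h2
  refine eq_zero_of_conjTranspose_mulVec ?_ (h.tri p hp i hi j hj hij k hk) ?_
  · rw [h.card, Fintype.card_sum, Fintype.card_sum, Fintype.card_fin]; ring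
  · rw [conjTranspose_fromCols_eq_fromRows_conjTranspose,
      conjTranspose_fromCols_eq_fromRows_conjTranspose, fromRows_mulVec, fromRows_mulVec,
      hx i hai, hx j haj, hx k hak]
    funext l
    rcases l with (l | l) | l <;> rfl

/-- the main inequality -/
theorem MatArr.main (h : MatArr c B P) {a : ι → ℝ}
    (ha : ∀ i, 0 ≤ a i) (hA : 0 < ∑ i, a i) (h1 : ∀ i, 3 * a i ≤ ∑ i, a i)
    (h2 : ∀ p ∈ P, 3 * ∑ i ∈ p, a i ≤ 2 * ∑ i, a i) {Q : Finset (Finset ι)} (hQ : Q ⊆ P) :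
    ∑ i, a i ^ 2 + ∑ p ∈ Q, ((∑ i ∈ p, a i) ^ 2 / 2 - ∑ i ∈ p, a i ^ 2) ≤
      (∑ i, a i) ^ 2 / 3 := by
  have hc : (0 : ℝ) < c := by exact_mod_cast h.c0
  obtain ⟨C, hC⟩ := h.KN_lower ha hA h1 h2
  refine le_of_forall_pos_le_add fun ε hε => ?_
  obtain ⟨S, hS, hle⟩ := exists_almost_isotropic ha hA h.inj (h.span ha hA h1 h2) h.card hC
    (mul_pos hε hc)
  -- traces
  set T : ι → ι → ℝ := fun i j => (proj S (B i) * proj S (B j)).trace with hT
  have hTii : ∀ i, T i i = c := by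
    intro i
    simp only [hT]
    rw [proj_idem hS (h.inj i), proj_trace hS (h.inj i)]
    simp
  have hTnn : ∀ i j, 0 ≤ T i j := fun i j =>
    trace_mul_nonneg (proj_conjTranspose _) (proj_conjTranspose _) (proj_idem hS (h.inj i))
      (proj_idem hS (h.inj j))
  have hpt : ∀ p ∈ P, (∑ i ∈ p, a i) ^ 2 / 2 * c ≤ ∑ i ∈ p, ∑ j ∈ p, a i * a j * T i j := by
    intro p hp
    obtain ⟨i, hi, j, hj, hij⟩ := Finset.one_lt_card.1 (h.lsp.two p hp)
    set M : Matrix n n ℝ := ∑ k ∈ p, a k • proj S (B k) with hM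
    have hMtr : M.trace = (∑ i ∈ p, a i) * c := by
      rw [hM, trace_sum, Finset.sum_mul]
      refine Finset.sum_congr rfl fun k _ => ?_
      rw [trace_smul, proj_trace hS (h.inj k)]
      simp
    have hMM : (M * M).trace = ∑ i ∈ p, ∑ j ∈ p, a i * a j * T i j := by
      rw [hM, Matrix.sum_mul, trace_sum]
      refine Finset.sum_congr rfl fun k _ => ?_
      rw [Matrix.mul_sum, trace_sum]
      refine Finset.sum_congr rfl fun l _ => ?_
      rw [Matrix.smul_mul, Matrix.mul_smul, smul_smul, trace_smul, smul_eq_mul]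
    have hMH : Mᴴ = M := by
      rw [hM, conjTranspose_sum]
      refine Finset.sum_congr rfl fun k _ => ?_
      rw [conjTranspose_smul, proj_conjTranspose]
      simp
    have hPM : proj S (fromCols (B i) (B j)) * M = M := by
      rw [hM, Matrix.mul_sum]
      refine Finset.sum_congr rfl fun k hk => ?_
      obtain ⟨R, hR⟩ := h.lin p hp i hi j hj hij k hk
      rw [Matrix.mul_smul, hR, proj_mul_proj hS (h.inj2 i j hij)]
    have h3 := trace_sq_le (r := 2 * c) (by positivity) (proj_conjTranspose _)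
      (proj_idem hS (h.inj2 i j hij))
      (by rw [proj_trace hS (h.inj2 i j hij)]; simp; ring) hMH hPM
    rw [hMM, hMtr] at h3
    refine le_trans (le_of_eq ?_) h3
    field_simp
  -- sum over the pairs
  have hsum : ∑ i, ∑ j, a i * a j * T i j = ∑ i, a i ^ 2 * c +
      ∑ p ∈ P, ∑ q ∈ p.offDiag, a q.1 * a q.2 * T q.1 q.2 := by
    rw [sum_sum_eq, h.lsp.sum_offDiag]
    congr 1
    refine Finset.sum_congr rfl fun i _ => ?_
    rw [hTii]; ring
  have hpQ : ∑ p ∈ Q, ((∑ i ∈ p, a i) ^ 2 / 2 - ∑ i ∈ p, a i ^ 2) * c ≤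
      ∑ p ∈ P, ∑ q ∈ p.offDiag, a q.1 * a q.2 * T q.1 q.2 := by
    refine le_trans (Finset.sum_le_sum fun p hp => ?_)
      (Finset.sum_le_sum_of_subset_of_nonneg hQ fun p _ _ =>
        Finset.sum_nonneg fun q _ => mul_nonneg (mul_nonneg (ha _) (ha _)) (hTnn _ _))
    have h3 := hpt p (hQ hp)
    rw [sum_sum_eq] at h3
    have h4 : ∑ i ∈ p, a i * a i * T i i = (∑ i ∈ p, a i ^ 2) * c := by
      rw [Finset.sum_mul]
      refine Finset.sum_congr rfl fun i _ => ?_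
      rw [hTii]; ring
    rw [h4] at h3
    rw [sub_mul]
    linarith
  have hfin : (∑ i, a i ^ 2 + ∑ p ∈ Q, ((∑ i ∈ p, a i) ^ 2 / 2 - ∑ i ∈ p, a i ^ 2)) * c ≤
      ((∑ i, a i) ^ 2 / 3 + ε) * c := by
    rw [add_mul, add_mul, Finset.sum_mul, Finset.sum_mul]
    have h5 : ∑ i, ∑ j, a i * a j * T i j ≤ (∑ i, a i) ^ 2 / 3 * c + ε * c := hle
    linarith
  exact le_of_mul_le_mul_right hfin hc

end Pool.Agent.Helper35.BM
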