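import Pool.Agent.Helper35.BM.Arr

set_option autoImplicit false

/-! Project BM (MP_872606_gt): the orbifold Chern numbers of a covering branched along an
arrangement of lines and the inequality `c₁² ≤ 3 c₂` deduced from the main inequality. -/

open Finset

namespace Pool.Agent.Helper35.BM

variable {ι : Type*} [Fintype ι] [DecidableEq ι]

/-- The square of `K + ∑ x_i D_i + ∑ z_p E_p` on the projective plane blown up in the points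
of `B`; here `D_i` is the proper transform of the line `i` and `E_p` the exceptional sphere over
the point `p` (a point is the set of the lines through it). -/
def c1sq (B : Finset (Finset ι)) (x : ι → ℝ) (z : Finset ι → ℝ) : ℝ :=
  (∑ i, x i - 3) ^ 2 - ∑ p ∈ B, (1 + z p - ∑ i ∈ p, x i) ^ 2

/-- The sum over the strata of the Euler number times the product of `1 - weight`. The strata are
the complement of all lines (Euler number `3 - ∑ (2 - m_i) - #P`, where `m_i` is the number of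
points on the line `i`), the lines without the points, the exceptional spheres over the points of
`B` without the points on the proper transforms, the points of intersection of proper transforms
and exceptional spheres, and the points outside of `B`. -/
def c2 (P B : Finset (Finset ι)) (x : ι → ℝ) (z : Finset ι → ℝ) : ℝ :=
  (3 - ∑ i, (2 - (#{p ∈ P | i ∈ p} : ℝ)) - #P) + ∑ i, (1 - x i) * (2 - (#{p ∈ P | i ∈ p} : ℝ)) +
    ∑ p ∈ B, ((1 - z p) * (2 - #p) + ∑ i ∈ p, (1 - z p) * (1 - x i)) +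
    ∑ p ∈ P \ B, ∏ i ∈ p, (1 - x i)

/-- Counting incidences. -/
theorem sum_mul_card (P : Finset (Finset ι)) (x : ι → ℝ) :
    ∑ i, x i * (#{p ∈ P | i ∈ p} : ℝ) = ∑ p ∈ P, ∑ i ∈ p, x i := by
  have h1 : ∀ i, x i * (#{p ∈ P | i ∈ p} : ℝ) = ∑ p ∈ P, if i ∈ p then x i else 0 := by
    intro i
    rw [← Finset.sum_filter, sum_const, nsmul_eq_mul, mul_comm]
  simp only [h1]
  rw [Finset.sum_comm]
  refine Finset.sum_congr rfl fun p _ => ?_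
  rw [← Finset.sum_filter]
  congr 1
  ext i
  simp

theorem c2_eq {P B : Finset (Finset ι)} (hB : B ⊆ P) (h2 : ∀ p ∈ P \ B, #p = 2) (x : ι → ℝ)
    (z : Finset ι → ℝ) :
    c2 P B x z = 3 - 2 * ∑ i, x i + ∑ p ∈ B, (1 - 2 * z p + z p * ∑ i ∈ p, x i)
      + ∑ p ∈ P \ B, ∏ i ∈ p, x i := by
  have e1 : ∑ i, (1 - x i) * (2 - (#{p ∈ P | i ∈ p} : ℝ)) =
      ∑ i, (2 - (#{p ∈ P | i ∈ p} : ℝ)) - 2 * ∑ i, x i + ∑ p ∈ P, ∑ i ∈ p, x i := by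
    rw [← sum_mul_card, Finset.mul_sum, ← Finset.sum_sub_distrib, ← Finset.sum_add_distrib]
    exact Finset.sum_congr rfl fun i _ => by ring
  have e2 : ∀ p ∈ P \ B, ∏ i ∈ p, (1 - x i) = 1 - ∑ i ∈ p, x i + ∏ i ∈ p, x i := by
    intro p hp
    obtain ⟨i, j, hij, rfl⟩ := Finset.card_eq_two.1 (h2 p hp)
    rw [Finset.prod_pair hij, Finset.prod_pair hij, Finset.sum_pair hij]
    ring
  have e3 : ∀ p ∈ B, ((1 - z p) * (2 - #p) + ∑ i ∈ p, (1 - z p) * (1 - x i)) =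
      (1 - z p) * (2 - ∑ i ∈ p, x i) := by
    intro p _
    rw [← Finset.mul_sum, Finset.sum_sub_distrib, Finset.sum_const, nsmul_eq_mul]
    ring
  have e4 : (#P : ℝ) = ∑ p ∈ B, (1 : ℝ) + ∑ p ∈ P \ B, (1 : ℝ) := by
    rw [add_comm, Finset.sum_sdiff hB]
    simp
  have e5 : ∑ p ∈ P, ∑ i ∈ p, x i = ∑ p ∈ B, ∑ i ∈ p, x i + ∑ p ∈ P \ B, ∑ i ∈ p, x i := by
    rw [add_comm, Finset.sum_sdiff hB]
  have e7 : ∑ p ∈ P \ B, (1 - ∑ i ∈ p, x i + ∏ i ∈ p, x i) =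
      ∑ p ∈ P \ B, (1 : ℝ) - ∑ p ∈ P \ B, ∑ i ∈ p, x i + ∑ p ∈ P \ B, ∏ i ∈ p, x i := by
    rw [Finset.sum_add_distrib, Finset.sum_sub_distrib]
  unfold c2
  rw [e1, Finset.sum_congr rfl e2, Finset.sum_congr rfl e3, e4, e5, e7]
  have e6 : ∑ p ∈ B, (1 - z p) * (2 - ∑ i ∈ p, x i) =
      ∑ p ∈ B, (1 - 2 * z p + z p * ∑ i ∈ p, x i) + ∑ p ∈ B, (1 : ℝ)
        - ∑ p ∈ B, ∑ i ∈ p, x i := by
    rw [← Finset.sum_add_distrib, ← Finset.sum_sub_distrib]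
    exact Finset.sum_congr rfl fun p _ => by ring
  rw [e6]
  ring

theorem three_c2_sub_c1sq {P B : Finset (Finset ι)} (hB : B ⊆ P) (h2 : ∀ p ∈ P \ B, #p = 2)
    (x : ι → ℝ) (z : Finset ι → ℝ) :
    3 * c2 P B x z - c1sq B x z = -(∑ i, x i) ^ 2 + 3 * ∑ p ∈ P \ B, ∏ i ∈ p, x i +
      ∑ p ∈ B, (3 / 4 * (∑ i ∈ p, x i) ^ 2 + (2 - z p - (∑ i ∈ p, x i) / 2) ^ 2) := by
  rw [c2_eq hB h2]
  unfold c1sq
  have e : ∑ p ∈ B, (3 / 4 * (∑ i ∈ p, x i) ^ 2 + (2 - z p - (∑ i ∈ p, x i) / 2) ^ 2) =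
      3 * ∑ p ∈ B, (1 - 2 * z p + z p * ∑ i ∈ p, x i) +
        ∑ p ∈ B, (1 + z p - ∑ i ∈ p, x i) ^ 2 := by
    rw [Finset.mul_sum, ← Finset.sum_add_distrib]
    exact Finset.sum_congr rfl fun p _ => by ring
  rw [e]
  ring

/-- `∑_{i ≠ j in p} x_i x_j`. -/
theorem sum_offDiag_mul (p : Finset ι) (x : ι → ℝ) :
    ∑ q ∈ p.offDiag, x q.1 * x q.2 = (∑ i ∈ p, x i) ^ 2 - ∑ i ∈ p, x i ^ 2 := by
  have h := sum_sum_eq p (fun i j => x i * x j)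
  have h1 : ∑ i ∈ p, ∑ j ∈ p, x i * x j = (∑ i ∈ p, x i) ^ 2 := by
    rw [sq, Finset.sum_mul_sum]
  rw [h1] at h
  have h2 : ∑ i ∈ p, x i * x i = ∑ i ∈ p, x i ^ 2 :=
    Finset.sum_congr rfl fun i _ => (sq _).symm
  rw [h2] at h
  linarith

theorem LinSp.sum_sq {P : Finset (Finset ι)} (h : LinSp P) (x : ι → ℝ) :
    (∑ i, x i) ^ 2 = ∑ i, x i ^ 2 + ∑ p ∈ P, ((∑ i ∈ p, x i) ^ 2 - ∑ i ∈ p, x i ^ 2) := by
  have h1 := sum_offDiag_mul univ x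
  rw [h.sum_offDiag (fun q => x q.1 * x q.2)] at h1
  simp only [sum_offDiag_mul] at h1
  linarith

/-- Case without heavy points. -/
theorem LinSp.light {P B : Finset (Finset ι)} (h : LinSp P) (hB : B ⊆ P)
    (h2 : ∀ p ∈ P \ B, #p = 2) {x : ι → ℝ}
    (hm : ∑ i, x i ^ 2 + ∑ p ∈ B, ((∑ i ∈ p, x i) ^ 2 / 2 - ∑ i ∈ p, x i ^ 2) ≤
      (∑ i, x i) ^ 2 / 3) :
    (∑ i, x i) ^ 2 ≤ 3 * ∑ p ∈ P \ B, ∏ i ∈ p, x i + ∑ p ∈ B, 3 / 4 * (∑ i ∈ p, x i) ^ 2 := by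
  have e1 : ∀ p ∈ P \ B, (∑ i ∈ p, x i) ^ 2 - ∑ i ∈ p, x i ^ 2 = 2 * ∏ i ∈ p, x i := by
    intro p hp
    obtain ⟨i, j, hij, rfl⟩ := Finset.card_eq_two.1 (h2 p hp)
    rw [Finset.prod_pair hij, Finset.sum_pair hij, Finset.sum_pair hij]
    ring
  have e2 := h.sum_sq x
  rw [← Finset.sum_sdiff hB, Finset.sum_congr rfl e1, ← Finset.mul_sum] at e2
  have e3 : ∑ p ∈ B, ((∑ i ∈ p, x i) ^ 2 - ∑ i ∈ p, x i ^ 2) =
      ∑ p ∈ B, ((∑ i ∈ p, x i) ^ 2 / 2 - ∑ i ∈ p, x i ^ 2) + ∑ p ∈ B, (∑ i ∈ p, x i) ^ 2 / 2 := by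
    rw [← Finset.sum_add_distrib]
    exact Finset.sum_congr rfl fun p _ => by ring
  have e4 : ∑ p ∈ B, 3 / 4 * (∑ i ∈ p, x i) ^ 2 =
      3 / 2 * ∑ p ∈ B, (∑ i ∈ p, x i) ^ 2 / 2 := by
    rw [Finset.mul_sum]
    exact Finset.sum_congr rfl fun p _ => by ring
  rw [e4]
  linarith

/-- Case of a heavy point. -/
theorem LinSp.heavy {P B : Finset (Finset ι)} (h : LinSp P) (hB : B ⊆ P)
    (h2 : ∀ p ∈ P \ B, #p = 2) {x : ι → ℝ} (hx : ∀ i, 0 ≤ x i) {z : Finset ι → ℝ}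
    {p : Finset ι} (hp : p ∈ B) (hS : 2 * ∑ i, x i ≤ 3 * ∑ i ∈ p, x i)
    (hz : 2 ≤ ∑ i, x i - ∑ i ∈ p, x i + z p) :
    (∑ i, x i) ^ 2 ≤ 3 * ∑ r ∈ P \ B, ∏ i ∈ r, x i +
      ∑ r ∈ B, (3 / 4 * (∑ i ∈ r, x i) ^ 2 + (2 - z r - (∑ i ∈ r, x i) / 2) ^ 2) := by
  classical
  set X := ∑ i, x i with hX
  set S := ∑ i ∈ p, x i with hSdef
  set f : ι × ι → ℝ := fun q => if q.1 ∈ p ∧ q.2 ∉ p then x q.1 * x q.2 else 0 with hf
  -- the sum over the pairs inside `r`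
  have hr : ∀ r : Finset ι, ∑ q ∈ r.offDiag, f q =
      (∑ i ∈ r with i ∈ p, x i) * ∑ i ∈ r with i ∉ p, x i := by
    intro r
    rw [Finset.sum_mul_sum, ← Finset.sum_product', hf, ← Finset.sum_filter]
    refine Finset.sum_congr ?_ fun _ _ => rfl
    ext ⟨i, j⟩
    simp only [mem_filter, mem_offDiag, mem_product]
    constructor
    · rintro ⟨⟨h1, h2, -⟩, h4, h5⟩
      exact ⟨⟨h1, h4⟩, h2, h5⟩
    · rintro ⟨⟨h1, h4⟩, h2, h5⟩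
      exact ⟨⟨h1, h2, fun h => h5 (h ▸ h4)⟩, h4, h5⟩
  have hsplit : ∀ r : Finset ι, (∑ i ∈ r with i ∈ p, x i) + ∑ i ∈ r with i ∉ p, x i =
      ∑ i ∈ r, x i := fun r => Finset.sum_filter_add_sum_filter_not r (· ∈ p) x
  have hnn1 : ∀ r : Finset ι, 0 ≤ ∑ i ∈ r with i ∈ p, x i :=
    fun r => Finset.sum_nonneg fun i _ => hx i
  have hnn2 : ∀ r : Finset ι, 0 ≤ ∑ i ∈ r with i ∉ p, x i :=
    fun r => Finset.sum_nonneg fun i _ => hx i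
  have htot : S * (X - S) = ∑ r ∈ P, (∑ i ∈ r with i ∈ p, x i) * ∑ i ∈ r with i ∉ p, x i := by
    have h1 := h.sum_offDiag f
    simp only [hr] at h1
    rw [← h1]
    have h3 : ({i ∈ (univ : Finset ι) | i ∈ p} : Finset ι) = p := by ext; simp
    have h4 := hsplit univ
    rw [h3] at h4 ⊢
    rw [← hSdef] at h4 ⊢
    rw [← hX] at h4
    have : ∑ i with i ∉ p, x i = X - S := by linarith
    rw [this]
  rw [← Finset.sum_sdiff hB] at htot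
  have hle1 : ∑ r ∈ P \ B, (∑ i ∈ r with i ∈ p, x i) * ∑ i ∈ r with i ∉ p, x i ≤
      ∑ r ∈ P \ B, ∏ i ∈ r, x i := by
    refine Finset.sum_le_sum fun r hr2 => ?_
    obtain ⟨i, j, hij, rfl⟩ := Finset.card_eq_two.1 (h2 r hr2)
    rw [Finset.prod_pair hij, Finset.sum_filter, Finset.sum_filter, Finset.sum_pair hij,
      Finset.sum_pair hij]
    have h3 := mul_nonneg (hx i) (hx j)
    by_cases h4 : i ∈ p <;> by_cases h5 : j ∈ p <;> simp [h4, h5] <;> linarith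
  have hle2 : ∑ r ∈ B.erase p, (∑ i ∈ r with i ∈ p, x i) * ∑ i ∈ r with i ∉ p, x i ≤
      ∑ r ∈ B.erase p, 1 / 3 *
        (3 / 4 * (∑ i ∈ r, x i) ^ 2 + (2 - z r - (∑ i ∈ r, x i) / 2) ^ 2) := by
    refine Finset.sum_le_sum fun r _ => ?_
    rw [← hsplit r]
    nlinarith [sq_nonneg ((∑ i ∈ r with i ∈ p, x i) - ∑ i ∈ r with i ∉ p, x i),
      sq_nonneg (2 - z r - ((∑ i ∈ r with i ∈ p, x i) + ∑ i ∈ r with i ∉ p, x i) / 2)]
  have hp0 : (∑ i ∈ p with i ∈ p, x i) * ∑ i ∈ p with i ∉ p, x i = 0 := by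
    have : ({i ∈ p | i ∉ p} : Finset ι) = ∅ := by ext; simp
    rw [this, sum_empty, mul_zero]
  rw [← Finset.sum_erase_add B _ hp, hp0, add_zero] at htot
  rw [← Finset.sum_erase_add B _ hp, ← hSdef]
  rw [← Finset.mul_sum] at hle2
  have hsq : (3 / 2 * S - X) ^ 2 ≤ (2 - z p - S / 2) ^ 2 := by
    have h3 : 0 ≤ 3 / 2 * S - X := by linarith
    have h4 : 3 / 2 * S - X ≤ -(2 - z p - S / 2) := by linarith
    nlinarith
  nlinarith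

/-- `c₁² ≤ 3 c₂` from the main inequality. -/
theorem LinSp.bmy {P B : Finset (Finset ι)} (h : LinSp P) (hB : B ⊆ P)
    (hB3 : ∀ p ∈ P, 3 ≤ #p → p ∈ B) {x : ι → ℝ} (hx : ∀ i, 0 ≤ x i) (hx1 : ∀ i, x i ≤ 1)
    (hX : 3 ≤ ∑ i, x i) {z : Finset ι → ℝ}
    (hz : ∀ p ∈ B, 3 * ∑ i ∈ p, x i ≤ 2 * ∑ i, x i ∨ 2 ≤ ∑ i, x i - ∑ i ∈ p, x i + z p)
    (hm : (∀ p ∈ P, 3 * ∑ i ∈ p, x i ≤ 2 * ∑ i, x i) →
      ∑ i, x i ^ 2 + ∑ p ∈ B, ((∑ i ∈ p, x i) ^ 2 / 2 - ∑ i ∈ p, x i ^ 2) ≤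
      (∑ i, x i) ^ 2 / 3) :
    c1sq B x z ≤ 3 * c2 P B x z := by
  have h2 : ∀ p ∈ P \ B, #p = 2 := by
    intro p hp
    rw [mem_sdiff] at hp
    have h3 := h.two p hp.1
    have h4 : ¬ 3 ≤ #p := fun h5 => hp.2 (hB3 p hp.1 h5)
    omega
  have key := three_c2_sub_c1sq hB h2 x z
  suffices hs : (∑ i, x i) ^ 2 ≤ 3 * ∑ p ∈ P \ B, ∏ i ∈ p, x i +
      ∑ p ∈ B, (3 / 4 * (∑ i ∈ p, x i) ^ 2 + (2 - z p - (∑ i ∈ p, x i) / 2) ^ 2) by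
    linarith
  by_cases hl : ∀ p ∈ P, 3 * ∑ i ∈ p, x i ≤ 2 * ∑ i, x i
  · refine le_trans (h.light hB h2 (hm hl)) ?_
    have : ∑ p ∈ B, 3 / 4 * (∑ i ∈ p, x i) ^ 2 ≤
        ∑ p ∈ B, (3 / 4 * (∑ i ∈ p, x i) ^ 2 + (2 - z p - (∑ i ∈ p, x i) / 2) ^ 2) :=
      Finset.sum_le_sum fun p _ => le_add_of_nonneg_right (sq_nonneg _)
    linarith
  · push Not at hl
    obtain ⟨p, hp, hS⟩ := hl
    have hpB : p ∈ B := by
      by_contra hcon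
      obtain ⟨i, j, hij, rfl⟩ := Finset.card_eq_two.1 (h2 p (mem_sdiff.2 ⟨hp, hcon⟩))
      rw [Finset.sum_pair hij] at hS
      have := hx1 i
      have := hx1 j
      linarith
    rcases hz p hpB with h3 | h3
    · linarith
    · exact h.heavy hB h2 hx hpB hS.le h3

end Pool.Agent.Helper35.BM
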