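import Pool.Agent.Helper35.BM.Scale

set_option autoImplicit false

/-! Project BM (MP_872606_gt): Fischer's inequality and the greedy lower bound for `KN`. -/

open Matrix Finset
open scoped Matrix

namespace Pool.Agent.Helper35.BM

section fischer

variable {m k : Type*} [Fintype m] [DecidableEq m] [Fintype k] [DecidableEq k]

theorem posDef_fromBlocks_diag {A : Matrix m m ℝ} {D : Matrix k k ℝ} (hA : A.PosDef)
    (hD : D.PosDef) : (fromBlocks A 0 0 D).PosDef := by
  obtain ⟨S, hS, hSu⟩ := exists_factor hA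
  obtain ⟨T, hT, hTu⟩ := exists_factor hD
  have h1 : fromBlocks A 0 0 D = (fromBlocks S 0 0 T)ᴴ * fromBlocks S 0 0 T := by
    rw [fromBlocks_conjTranspose, fromBlocks_multiply, hS, hT]
    simp
  rw [h1]
  apply posDef_conjTranspose_mul_self_of_isUnit
  rw [det_fromBlocks_zero₂₁]
  exact hSu.mul hTu

theorem log_det_fromBlocks_le {A : Matrix m m ℝ} {B : Matrix m k ℝ} {C : Matrix k m ℝ}
    {D : Matrix k k ℝ} (hM : (fromBlocks A B C D).PosDef) (hA : A.PosDef) (hD : D.PosDef) :
    Real.log (fromBlocks A B C D).det ≤ Real.log A.det + Real.log D.det := by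
  have h1 := log_det_sub_le (posDef_fromBlocks_diag hA hD) hM
  have hAA : A⁻¹ * A = 1 := nonsing_inv_mul _ hA.det_pos.ne'.isUnit
  have hDD : D⁻¹ * D = 1 := nonsing_inv_mul _ hD.det_pos.ne'.isUnit
  have h2 : (fromBlocks A 0 0 D)⁻¹ = fromBlocks A⁻¹ 0 0 D⁻¹ := by
    apply inv_eq_left_inv
    rw [fromBlocks_multiply, hAA, hDD]
    simp
  have h3 : ((fromBlocks A 0 0 D)⁻¹ * fromBlocks A B C D).trace = Fintype.card (m ⊕ k) := by
    rw [h2, fromBlocks_multiply]
    unfold Matrix.trace
    rw [Fintype.sum_sum_type]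
    simp [hAA, hDD]
  rw [h3, sub_self, det_fromBlocks_zero₂₁, Real.log_mul hA.det_pos.ne' hD.det_pos.ne'] at h1
  linarith

variable {n : Type*} [Fintype n] [DecidableEq n]

theorem injective_left_of_fromCols {A : Matrix n m ℝ} {B : Matrix n k ℝ}
    (h : Function.Injective (fromCols A B).mulVec) : Function.Injective A.mulVec := by
  intro v w hvw
  have h1 : fromCols A B *ᵥ Sum.elim v (0 : k → ℝ) = fromCols A B *ᵥ Sum.elim w (0 : k → ℝ) := by
    rw [fromCols_mulVec_sumElim, fromCols_mulVec_sumElim]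
    exact congrArg (· + B *ᵥ (0 : k → ℝ)) hvw
  have h2 := h h1
  funext i
  exact congrFun h2 (Sum.inl i)

theorem injective_right_of_fromCols {A : Matrix n m ℝ} {B : Matrix n k ℝ}
    (h : Function.Injective (fromCols A B).mulVec) : Function.Injective B.mulVec := by
  intro v w hvw
  have h1 : fromCols A B *ᵥ Sum.elim (0 : m → ℝ) v = fromCols A B *ᵥ Sum.elim (0 : m → ℝ) w := by
    rw [fromCols_mulVec_sumElim, fromCols_mulVec_sumElim]
    exact congrArg (A *ᵥ (0 : m → ℝ) + ·) hvw
  have h2 := h h1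
  funext i
  exact congrFun h2 (Sum.inr i)

theorem fischer {A : Matrix n m ℝ} {B : Matrix n k ℝ} {g : Matrix n n ℝ} (hg : g.PosDef)
    (h : Function.Injective (fromCols A B).mulVec) :
    Real.log ((fromCols A B)ᴴ * g * fromCols A B).det ≤
      Real.log (Aᴴ * g * A).det + Real.log (Bᴴ * g * B).det := by
  have h1 : (fromCols A B)ᴴ * g * fromCols A B =
      fromBlocks (Aᴴ * g * A) (Aᴴ * g * B) (Bᴴ * g * A) (Bᴴ * g * B) := by
    rw [conjTranspose_fromCols_eq_fromRows_conjTranspose, fromRows_mul, fromRows_mul_fromCols]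
  have h2 := posDef_gram hg h
  rw [h1] at h2 ⊢
  exact log_det_fromBlocks_le h2 (posDef_gram hg (injective_left_of_fromCols h))
    (posDef_gram hg (injective_right_of_fromCols h))

/-- Fischer's inequality for three blocks filling the space. -/
theorem fischer_three {A : Matrix n m ℝ} {B : Matrix n m ℝ} {C : Matrix n m ℝ}
    (hcard : Fintype.card n = 3 * Fintype.card m)
    (h : Function.Injective (fromCols (fromCols A B) C).mulVec) :
    ∃ K : ℝ, ∀ g : Matrix n n ℝ, g.PosDef → Real.log g.det + K ≤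
      Real.log (Aᴴ * g * A).det + Real.log (Bᴴ * g * B).det + Real.log (Cᴴ * g * C).det := by
  set D := fromCols (fromCols A B) C with hD
  have hc : Fintype.card n = Fintype.card ((m ⊕ m) ⊕ m) := by
    rw [Fintype.card_sum, Fintype.card_sum, hcard]; ring
  let e : n ≃ ((m ⊕ m) ⊕ m) := Fintype.equivOfCardEq hc
  let D' : Matrix n n ℝ := D.submatrix id e
  have hinj : Function.Injective D'.mulVec := by
    intro v w hvw
    have h1 : ∀ v : n → ℝ, D' *ᵥ v = D *ᵥ (v ∘ e.symm) := by
      intro v
      have := Matrix.submatrix_mulVec_equiv D v id e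
      simpa using this
    simp only [h1] at hvw
    have h2 := h hvw
    funext i
    have h3 := congrFun h2 (e i)
    simpa using h3
  have hdet : D'.det ≠ 0 := by
    have h1 : IsUnit D' := Matrix.mulVec_injective_iff_isUnit.1 hinj
    exact ((Matrix.isUnit_iff_isUnit_det _).1 h1).ne_zero
  refine ⟨Real.log (D'.det ^ 2), fun g hg => ?_⟩
  have h1 : (Dᴴ * g * D).det = D'.det ^ 2 * g.det := by
    have h2 : D'ᴴ * g * D' = (Dᴴ * g * D).submatrix e e := by
      ext i j
      simp [D', Matrix.mul_apply]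
    have h3 : (D'ᴴ * g * D').det = (Dᴴ * g * D).det := by
      rw [h2, det_submatrix_equiv_self]
    rw [← h3, det_mul, det_mul, det_conjTranspose]
    simp only [star_trivial]
    ring
  have h4 := fischer hg h
  have h5 := fischer hg (injective_left_of_fromCols h)
  rw [← hD, h1, Real.log_mul (pow_ne_zero _ hdet) hg.det_pos.ne'] at h4
  linarith

end fischer

end Pool.Agent.Helper35.BM
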