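import Mathlib

set_option autoImplicit false

/-! Project BM (MP_872606_gt): matrix inequalities. -/

open Matrix Finset
open scoped Matrix

namespace Pool.Agent.Helper35.BM

variable {n : Type*} [Fintype n] [DecidableEq n]

theorem exists_factor {D : Matrix n n ℝ} (hD : D.PosDef) :
    ∃ S : Matrix n n ℝ, D = Sᴴ * S ∧ IsUnit S.det := by
  set U : Matrix n n ℝ := (hD.1.eigenvectorUnitary : Matrix n n ℝ) with hU
  have hspec : D = U * diagonal (hD.1.eigenvalues) * Uᴴ := by
    have h := hD.1.spectral_theorem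
    rw [Unitary.conjStarAlgAut_apply] at h
    simpa [hU, Matrix.star_eq_conjTranspose, Function.comp_def] using h
  refine ⟨diagonal (fun i => √(hD.1.eigenvalues i)) * Uᴴ, ?_, ?_⟩
  · rw [conjTranspose_mul, conjTranspose_conjTranspose, diagonal_conjTranspose, mul_assoc,
      ← mul_assoc (diagonal _) (diagonal _) Uᴴ, diagonal_mul_diagonal]
    conv_lhs => rw [hspec, mul_assoc]
    congr 2
    congr 1
    funext i
    simp [Real.mul_self_sqrt (hD.eigenvalues_pos i).le]
  · have h1 : 0 < D.det := hD.det_pos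
    have h2 : D = (diagonal (fun i => √(hD.1.eigenvalues i)) * Uᴴ)ᴴ *
        (diagonal (fun i => √(hD.1.eigenvalues i)) * Uᴴ) := by
      rw [conjTranspose_mul, conjTranspose_conjTranspose, diagonal_conjTranspose, mul_assoc,
        ← mul_assoc (diagonal _) (diagonal _) Uᴴ, diagonal_mul_diagonal]
      conv_lhs => rw [hspec, mul_assoc]
      congr 2
      congr 1
      funext i
      simp [Real.mul_self_sqrt (hD.eigenvalues_pos i).le]
    rw [h2, det_mul] at h1
    exact isUnit_iff_ne_zero.2 (right_ne_zero_of_mul h1.ne')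

theorem log_det_le_trace {M : Matrix n n ℝ} (hM : M.PosDef) :
    Real.log M.det ≤ M.trace - Fintype.card n := by
  have h1 := hM.1.det_eq_prod_eigenvalues
  have h2 := hM.1.trace_eq_sum_eigenvalues
  simp only [RCLike.ofReal_real_eq_id, id_eq] at h1 h2
  rw [h1, h2, Real.log_prod (fun i _ => (hM.eigenvalues_pos i).ne')]
  have h3 : (Fintype.card n : ℝ) = ∑ _i : n, (1 : ℝ) := by simp
  rw [h3, ← Finset.sum_sub_distrib]
  exact Finset.sum_le_sum fun i _ => Real.log_le_sub_one_of_pos (hM.eigenvalues_pos i)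

theorem log_det_sub_le {D M : Matrix n n ℝ} (hD : D.PosDef) (hM : M.PosDef) :
    Real.log M.det - Real.log D.det ≤ (D⁻¹ * M).trace - Fintype.card n := by
  obtain ⟨S, hS, hSu⟩ := exists_factor hD
  have hSH : IsUnit Sᴴ.det := by
    rw [det_conjTranspose]
    simpa using hSu
  have hinj : Function.Injective (S⁻¹).mulVec := by
    apply Matrix.mulVec_injective_of_isUnit
    exact (Matrix.isUnit_iff_isUnit_det _).2 (Matrix.isUnit_nonsing_inv_det _ hSu)
  have hM' : ((S⁻¹)ᴴ * M * S⁻¹).PosDef := hM.conjTranspose_mul_mul_same hinj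
  have h1 := log_det_le_trace hM'
  have hdetD : D.det = S.det * S.det := by
    rw [hS, det_mul, det_conjTranspose]; simp
  have hSne : S.det ≠ 0 := hSu.ne_zero
  have hdet : ((S⁻¹)ᴴ * M * S⁻¹).det = M.det / D.det := by
    rw [det_mul, det_mul, det_conjTranspose, det_nonsing_inv, Ring.inverse_eq_inv', hdetD]
    simp only [star_trivial]
    field_simp
  have htr : ((S⁻¹)ᴴ * M * S⁻¹).trace = (D⁻¹ * M).trace := by
    rw [hS, Matrix.mul_inv_rev, trace_mul_cycle, ← conjTranspose_nonsing_inv]
  rw [hdet, htr, Real.log_div hM.det_pos.ne' hD.det_pos.ne'] at h1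
  exact h1

theorem trace_mul_self_eq {M : Matrix n n ℝ} (hM : M.IsHermitian) :
    (M * M).trace = ∑ i, hM.eigenvalues i ^ 2 := by
  set U : Matrix n n ℝ := (hM.eigenvectorUnitary : Matrix n n ℝ) with hU
  have hspec : M = U * diagonal (hM.eigenvalues) * Uᴴ := by
    have h := hM.spectral_theorem
    rw [Unitary.conjStarAlgAut_apply] at h
    simpa [hU, Matrix.star_eq_conjTranspose, Function.comp_def] using h
  have hUU : Uᴴ * U = 1 := by
    have := Unitary.coe_star_mul_self hM.eigenvectorUnitary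
    simpa [hU, Matrix.star_eq_conjTranspose] using this
  calc (M * M).trace = (U * diagonal (hM.eigenvalues) * Uᴴ *
        (U * diagonal (hM.eigenvalues) * Uᴴ)).trace := by rw [← hspec]
    _ = (U * diagonal (hM.eigenvalues) * (Uᴴ * U) * diagonal (hM.eigenvalues) * Uᴴ).trace := by
        simp only [mul_assoc]
    _ = (U * (diagonal (hM.eigenvalues) * diagonal (hM.eigenvalues)) * Uᴴ).trace := by
        rw [hUU]; simp only [mul_assoc, one_mul]
    _ = (diagonal (hM.eigenvalues) * diagonal (hM.eigenvalues)).trace := by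
        rw [trace_mul_cycle, hUU, one_mul]
    _ = _ := by
        rw [diagonal_mul_diagonal, trace_diagonal]
        simp [sq]

theorem trace_mul_self_le {M : Matrix n n ℝ} (hM : M.PosDef) (htr : M.trace = Fintype.card n) :
    (M * M).trace ≤ Fintype.card n + 4 * Fintype.card n * (-Real.log M.det) := by
  rcases isEmpty_or_nonempty n with hne | hne
  · simp [Matrix.trace]
  have hn1 : (1 : ℝ) ≤ Fintype.card n := by exact_mod_cast Fintype.card_pos
  have h1 := hM.1.det_eq_prod_eigenvalues
  have h2 := hM.1.trace_eq_sum_eigenvalues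
  simp only [RCLike.ofReal_real_eq_id, id_eq] at h1 h2
  rw [trace_mul_self_eq hM.1, h1, Real.log_prod (fun i _ => (hM.eigenvalues_pos i).ne')]
  have hle : ∀ i, hM.1.eigenvalues i ≤ Fintype.card n := by
    intro i
    rw [← htr, h2]
    exact Finset.single_le_sum (f := hM.1.eigenvalues) (fun j _ => (hM.eigenvalues_pos j).le)
      (Finset.mem_univ i)
  have key : ∀ i, hM.1.eigenvalues i ^ 2 ≤ 1 + 2 * (hM.1.eigenvalues i - 1)
      + 4 * Fintype.card n * (hM.1.eigenvalues i - 1 - Real.log (hM.1.eigenvalues i)) := by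
    intro i
    set l := hM.1.eigenvalues i with hl
    have hl0 : 0 < l := hM.eigenvalues_pos i
    have hs0 : 0 < √l := Real.sqrt_pos.2 hl0
    have hsq : √l ^ 2 = l := Real.sq_sqrt hl0.le
    have hlog : Real.log l ≤ 2 * (√l - 1) := by
      have h3 : Real.log (√l) ≤ √l - 1 := Real.log_le_sub_one_of_pos hs0
      have h4 : Real.log (√l) = Real.log l / 2 := Real.log_sqrt hl0.le
      linarith
    have h5 : (√l - 1) ^ 2 ≤ l - 1 - Real.log l := by nlinarith
    have h6 : (√l + 1) ^ 2 ≤ 4 * Fintype.card n := by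
      have h7 : l ≤ Fintype.card n := hle i
      nlinarith [sq_nonneg (√l - 1)]
    have h8 : (l - 1) ^ 2 = (√l - 1) ^ 2 * (√l + 1) ^ 2 := by
      have : l - 1 = (√l - 1) * (√l + 1) := by nlinarith
      rw [this]; ring
    have h9 : (l - 1) ^ 2 ≤ (l - 1 - Real.log l) * (4 * Fintype.card n) := by
      rw [h8]
      exact mul_le_mul h5 h6 (sq_nonneg _) (le_trans (sq_nonneg _) h5)
    nlinarith
  calc ∑ i, hM.1.eigenvalues i ^ 2
      ≤ ∑ i, (1 + 2 * (hM.1.eigenvalues i - 1)
      + 4 * Fintype.card n * (hM.1.eigenvalues i - 1 - Real.log (hM.1.eigenvalues i))) :=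
        Finset.sum_le_sum fun i _ => key i
    _ = _ := by
        have h10 : ∑ i, (hM.1.eigenvalues i - 1) = 0 := by
          rw [Finset.sum_sub_distrib, ← h2, htr]; simp
        rw [Finset.sum_add_distrib, Finset.sum_add_distrib, ← Finset.mul_sum, ← Finset.mul_sum,
          Finset.sum_sub_distrib (f := fun i => hM.1.eigenvalues i - 1), h10]
        simp

/-- Frobenius positivity. -/
theorem trace_conjTranspose_mul_self_nonneg' {m : Type*} [Fintype m] (A : Matrix m n ℝ) :
    0 ≤ (Aᴴ * A).trace := (posSemidef_conjTranspose_mul_self A).trace_nonneg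

/-- `tr(P Q) ≥ 0` for orthogonal projections. -/
theorem trace_mul_nonneg {P Q : Matrix n n ℝ} (hP : Pᴴ = P) (hQ : Qᴴ = Q) (hPP : P * P = P)
    (hQQ : Q * Q = Q) : 0 ≤ (P * Q).trace := by
  have h1 := trace_conjTranspose_mul_self_nonneg' (Q * P)
  rw [conjTranspose_mul, hP, hQ] at h1
  have h2 : (P * Q * (Q * P)).trace = (P * Q).trace := by
    rw [← mul_assoc, mul_assoc P Q Q, hQQ, trace_mul_cycle, hPP]
  rwa [h2] at h1

/-- Cauchy-Schwarz: `(tr T)² ≤ r tr(T²)` if `T = Π T` for a projection `Π` of trace `r`. -/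
theorem trace_sq_le {P T : Matrix n n ℝ} {r : ℝ} (hr : 0 < r) (hP : Pᴴ = P) (hPP : P * P = P)
    (hPr : P.trace = r) (hT : Tᴴ = T) (hPT : P * T = T) : T.trace ^ 2 / r ≤ (T * T).trace := by
  set t : ℝ := T.trace / r with ht
  have h1 := trace_conjTranspose_mul_self_nonneg' (T - t • P)
  have h2 : (T - t • P)ᴴ = T - t • P := by
    rw [conjTranspose_sub, conjTranspose_smul, hT, hP]; simp
  have hTP : T * P = T := by
    have := congrArg conjTranspose hPT
    rwa [conjTranspose_mul, hT, hP] at this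
  rw [h2, sub_mul, mul_sub, mul_sub, smul_mul, Matrix.mul_smul, smul_mul, Matrix.mul_smul, hPP,
    hPT, hTP, trace_sub, trace_sub, trace_sub, trace_smul, trace_smul, trace_smul, hPr] at h1
  simp only [smul_eq_mul] at h1
  have h3 : T.trace = t * r := by rw [ht]; field_simp
  rw [h3] at h1 ⊢
  have h4 : (t * r) ^ 2 / r = t * (t * r) := by field_simp
  rw [h4]
  linarith

end Pool.Agent.Helper35.BM
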