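import Pool.Agent.Helper35.BM.Mat

set_option autoImplicit false

/-! Project BM (MP_872606_gt): one step of operator scaling gives an almost isotropic position. -/

open Matrix Finset
open scoped Matrix

namespace Pool.Agent.Helper35.BM

variable {n : Type*} [Fintype n] [DecidableEq n]

/-- the orthogonal projection onto the column space of `S * B` -/
noncomputable def proj {m : Type*} [Fintype m] [DecidableEq m] (S : Matrix n n ℝ)
    (B : Matrix n m ℝ) : Matrix n n ℝ := S * B * (Bᴴ * (Sᴴ * S) * B)⁻¹ * Bᴴ * Sᴴ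

section proj

variable {m : Type*} [Fintype m] [DecidableEq m]

theorem posDef_conjTranspose_mul_self_of_isUnit {S : Matrix n n ℝ} (hS : IsUnit S.det) :
    (Sᴴ * S).PosDef :=
  Matrix.PosDef.conjTranspose_mul_self S
    (Matrix.mulVec_injective_of_isUnit ((Matrix.isUnit_iff_isUnit_det _).2 hS))

theorem posDef_gram {g : Matrix n n ℝ} (hg : g.PosDef) {B : Matrix n m ℝ}
    (hB : Function.Injective B.mulVec) : (Bᴴ * g * B).PosDef :=
  hg.conjTranspose_mul_mul_same hB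

theorem proj_conjTranspose {S : Matrix n n ℝ} (B : Matrix n m ℝ) :
    (proj S B)ᴴ = proj S B := by
  have h1 : ((Bᴴ * (Sᴴ * S) * B)⁻¹)ᴴ = (Bᴴ * (Sᴴ * S) * B)⁻¹ := by
    rw [conjTranspose_nonsing_inv]
    congr 1
    simp only [conjTranspose_mul, conjTranspose_conjTranspose, Matrix.mul_assoc]
  unfold proj
  rw [conjTranspose_mul, conjTranspose_mul, conjTranspose_mul, conjTranspose_mul, h1,
    conjTranspose_conjTranspose, conjTranspose_conjTranspose]
  simp only [Matrix.mul_assoc]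

theorem gram_mul_inv {S : Matrix n n ℝ} (hS : IsUnit S.det) {B : Matrix n m ℝ}
    (hB : Function.Injective B.mulVec) :
    (Bᴴ * (Sᴴ * S) * B)⁻¹ * (Bᴴ * (Sᴴ * S) * B) = 1 := by
  apply nonsing_inv_mul
  exact ((posDef_gram (posDef_conjTranspose_mul_self_of_isUnit hS) hB).det_pos.ne').isUnit

theorem proj_mul_range {k : Type*} [Fintype k] {S : Matrix n n ℝ} (hS : IsUnit S.det)
    {B : Matrix n m ℝ} (hB : Function.Injective B.mulVec) (R : Matrix m k ℝ) :
    proj S B * (S * (B * R)) = S * (B * R) := by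
  calc proj S B * (S * (B * R))
      = S * B * ((Bᴴ * (Sᴴ * S) * B)⁻¹ * (Bᴴ * (Sᴴ * S) * B)) * R := by
        unfold proj
        simp only [Matrix.mul_assoc]
    _ = _ := by
        rw [gram_mul_inv hS hB, Matrix.mul_one]
        simp only [Matrix.mul_assoc]

theorem proj_idem {S : Matrix n n ℝ} (hS : IsUnit S.det) {B : Matrix n m ℝ}
    (hB : Function.Injective B.mulVec) : proj S B * proj S B = proj S B := by
  have h1 : proj S B = S * (B * ((Bᴴ * (Sᴴ * S) * B)⁻¹ * Bᴴ * Sᴴ)) := by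
    unfold proj
    simp only [Matrix.mul_assoc]
  conv_lhs => rw [h1]
  rw [← h1]
  conv_lhs => rw [h1]
  rw [← h1]
  calc proj S B * proj S B = proj S B * (S * (B * ((Bᴴ * (Sᴴ * S) * B)⁻¹ * Bᴴ * Sᴴ))) := by
        rw [← h1]
    _ = _ := by rw [proj_mul_range hS hB, ← h1]

theorem proj_trace {S : Matrix n n ℝ} (hS : IsUnit S.det) {B : Matrix n m ℝ}
    (hB : Function.Injective B.mulVec) : (proj S B).trace = Fintype.card m := by
  have h1 : proj S B = (S * B) * ((Bᴴ * (Sᴴ * S) * B)⁻¹ * (Bᴴ * Sᴴ)) := by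
    unfold proj
    simp only [Matrix.mul_assoc]
  rw [h1, trace_mul_comm, Matrix.mul_assoc, show Bᴴ * Sᴴ * (S * B) = Bᴴ * (Sᴴ * S) * B by
    simp only [Matrix.mul_assoc], gram_mul_inv hS hB, trace_one]

theorem proj_mul_proj {k : Type*} [Fintype k] [DecidableEq k] {S : Matrix n n ℝ}
    (hS : IsUnit S.det) {B : Matrix n m ℝ}
    (hB : Function.Injective B.mulVec) (R : Matrix m k ℝ) :
    proj S B * proj S (B * R) = proj S (B * R) := by
  have h1 : proj S (B * R) = (S * (B * R)) *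
      (((B * R)ᴴ * (Sᴴ * S) * (B * R))⁻¹ * (B * R)ᴴ * Sᴴ) := by
    conv_lhs => unfold proj
    simp only [Matrix.mul_assoc]
  rw [h1, ← Matrix.mul_assoc, proj_mul_range hS hB]

end proj

section scale

variable {ι : Type*} [Fintype ι] {c : ℕ}

/-- the Kempf-Ness function -/
noncomputable def KN (B : ι → Matrix n (Fin c) ℝ) (a : ι → ℝ) (g : Matrix n n ℝ) : ℝ :=
  ∑ i, a i * Real.log ((B i)ᴴ * g * B i).det - (∑ i, a i) / 3 * Real.log g.det

/-- the scaling matrix -/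
noncomputable def KM (B : ι → Matrix n (Fin c) ℝ) (a : ι → ℝ) (g : Matrix n n ℝ) :
    Matrix n n ℝ :=
  (3 / ∑ i, a i) • ∑ i, a i • (B i * ((B i)ᴴ * g * B i)⁻¹ * (B i)ᴴ)

theorem posDef_KM {B : ι → Matrix n (Fin c) ℝ} {a : ι → ℝ} (ha : ∀ i, 0 ≤ a i)
    (hA : 0 < ∑ i, a i) (hB : ∀ i, Function.Injective (B i).mulVec)
    (hsp : ∀ x : n → ℝ, (∀ i, 0 < a i → (B i)ᴴ *ᵥ x = 0) → x = 0)
    {g : Matrix n n ℝ} (hg : g.PosDef) : (KM B a g).PosDef := by
  have hG : ∀ i, (((B i)ᴴ * g * B i)⁻¹).PosDef := fun i => (posDef_gram hg (hB i)).inv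
  have hpsd : ∀ i, (B i * ((B i)ᴴ * g * B i)⁻¹ * (B i)ᴴ).PosSemidef := fun i =>
    (hG i).posSemidef.mul_mul_conjTranspose_same (B i)
  have hherm : (KM B a g).IsHermitian := by
    unfold KM
    have h1 : (∑ i, a i • (B i * ((B i)ᴴ * g * B i)⁻¹ * (B i)ᴴ)).PosSemidef :=
      posSemidef_sum _ fun i _ => (hpsd i).smul (ha i)
    exact (h1.smul (by positivity : (0 : ℝ) ≤ 3 / ∑ i, a i)).isHermitian
  refine PosDef.of_dotProduct_mulVec_pos hherm fun x hx => ?_
  have hval : star x ⬝ᵥ (KM B a g *ᵥ x) =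
      (3 / ∑ i, a i) * ∑ i, a i * (star ((B i)ᴴ *ᵥ x) ⬝ᵥ
        (((B i)ᴴ * g * B i)⁻¹ *ᵥ ((B i)ᴴ *ᵥ x))) := by
    unfold KM
    rw [smul_mulVec, dotProduct_smul, sum_mulVec, dotProduct_sum, smul_eq_mul]
    congr 1
    refine Finset.sum_congr rfl fun i _ => ?_
    rw [smul_mulVec, dotProduct_smul, smul_eq_mul]
    congr 1
    rw [← mulVec_mulVec, ← mulVec_mulVec, dotProduct_mulVec, star_mulVec,
      conjTranspose_conjTranspose]
  rw [hval]
  have hnn : ∀ i, 0 ≤ a i * (star ((B i)ᴴ *ᵥ x) ⬝ᵥ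
        (((B i)ᴴ * g * B i)⁻¹ *ᵥ ((B i)ᴴ *ᵥ x))) := fun i =>
    mul_nonneg (ha i) ((hG i).posSemidef.dotProduct_mulVec_nonneg _)
  have hex : ∃ i, 0 < a i ∧ (B i)ᴴ *ᵥ x ≠ 0 := by
    by_contra hcon
    push Not at hcon
    exact hx (hsp x hcon)
  obtain ⟨i, hi, hxi⟩ := hex
  have hpos : 0 < a i * (star ((B i)ᴴ *ᵥ x) ⬝ᵥ
        (((B i)ᴴ * g * B i)⁻¹ *ᵥ ((B i)ᴴ *ᵥ x))) :=
    mul_pos hi ((hG i).dotProduct_mulVec_pos hxi)
  have hsum : 0 < ∑ i, a i * (star ((B i)ᴴ *ᵥ x) ⬝ᵥ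
        (((B i)ᴴ * g * B i)⁻¹ *ᵥ ((B i)ᴴ *ᵥ x))) :=
    Finset.sum_pos' (fun i _ => hnn i) ⟨i, Finset.mem_univ _, hpos⟩
  positivity

theorem KN_step {B : ι → Matrix n (Fin c) ℝ} {a : ι → ℝ} (ha : ∀ i, 0 ≤ a i)
    (hA : 0 < ∑ i, a i) (hB : ∀ i, Function.Injective (B i).mulVec)
    (hsp : ∀ x : n → ℝ, (∀ i, 0 < a i → (B i)ᴴ *ᵥ x = 0) → x = 0)
    (hn : Fintype.card n = 3 * c) {g : Matrix n n ℝ} (hg : g.PosDef) :
    KN B a (KM B a g)⁻¹ ≤ KN B a g +
      (∑ i, a i) / 3 * (Real.log g.det + Real.log (KM B a g).det) := by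
  have hK := posDef_KM ha hA hB hsp hg
  have h1 : ∀ i, a i * Real.log ((B i)ᴴ * (KM B a g)⁻¹ * B i).det -
      a i * Real.log ((B i)ᴴ * g * B i).det ≤
      a i * ((B i * ((B i)ᴴ * g * B i)⁻¹ * (B i)ᴴ * (KM B a g)⁻¹).trace - c) := by
    intro i
    rw [← mul_sub]
    refine mul_le_mul_of_nonneg_left ?_ (ha i)
    have h2 := log_det_sub_le (posDef_gram hg (hB i)) (posDef_gram hK.inv (hB i))
    rw [Fintype.card_fin] at h2
    refine le_trans h2 (le_of_eq ?_)
    congr 1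
    rw [← Matrix.mul_assoc, ← Matrix.mul_assoc, trace_mul_comm, ← Matrix.mul_assoc, ← Matrix.mul_assoc]
  have h3 := Finset.sum_le_sum fun i (_ : i ∈ Finset.univ) => h1 i
  rw [Finset.sum_sub_distrib] at h3
  have h4 : ∑ i, a i * ((B i * ((B i)ᴴ * g * B i)⁻¹ * (B i)ᴴ * (KM B a g)⁻¹).trace - c) = 0 := by
    have h5 : ∑ i, a i * (B i * ((B i)ᴴ * g * B i)⁻¹ * (B i)ᴴ * (KM B a g)⁻¹).trace
        = (∑ i, a i) / 3 * (KM B a g * (KM B a g)⁻¹).trace := by
      conv_rhs => rw [show KM B a g * (KM B a g)⁻¹ = (3 / ∑ i, a i) •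
        ∑ i, a i • (B i * ((B i)ᴴ * g * B i)⁻¹ * (B i)ᴴ) * (KM B a g)⁻¹ by
          conv_lhs => rw [KM]
          rw [Matrix.smul_mul, Matrix.sum_mul]
          rfl]
      rw [trace_smul, trace_sum, smul_eq_mul, ← _root_.mul_assoc]
      rw [show (∑ i, a i) / 3 * (3 / ∑ i, a i) = 1 by field_simp, one_mul]
      refine Finset.sum_congr rfl fun i _ => ?_
      rw [Matrix.smul_mul, trace_smul, smul_eq_mul]
    simp only [mul_sub]
    rw [Finset.sum_sub_distrib, h5, mul_nonsing_inv _ hK.det_pos.ne'.isUnit, trace_one, hn,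
      ← Finset.sum_mul]
    push_cast
    ring
  rw [h4] at h3
  unfold KN
  rw [det_nonsing_inv, Ring.inverse_eq_inv', Real.log_inv]
  have h6 : (∑ i, a i) / 3 * (Real.log g.det + Real.log (KM B a g).det) =
    (∑ i, a i) / 3 * Real.log g.det + (∑ i, a i) / 3 * Real.log (KM B a g).det := by ring
  have h7 : (∑ i, a i) / 3 * -Real.log (KM B a g).det =
    -((∑ i, a i) / 3 * Real.log (KM B a g).det) := by ring
  rw [h6, h7]
  linarith

/-- almost isotropic positions exist as soon as the Kempf-Ness function is bounded below -/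
theorem exists_almost_isotropic {B : ι → Matrix n (Fin c) ℝ} {a : ι → ℝ} (ha : ∀ i, 0 ≤ a i)
    (hA : 0 < ∑ i, a i) (hB : ∀ i, Function.Injective (B i).mulVec)
    (hsp : ∀ x : n → ℝ, (∀ i, 0 < a i → (B i)ᴴ *ᵥ x = 0) → x = 0)
    (hn : Fintype.card n = 3 * c) {C : ℝ} (hC : ∀ g : Matrix n n ℝ, g.PosDef → C ≤ KN B a g)
    {ε : ℝ} (hε : 0 < ε) :
    ∃ S : Matrix n n ℝ, IsUnit S.det ∧
      ∑ i, ∑ j, a i * a j * (proj S (B i) * proj S (B j)).trace ≤
        (∑ i, a i) ^ 2 / 3 * c + ε := by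
  set A := ∑ i, a i with hAdef
  -- choose g close to the infimum
  set I : ℝ := sInf {t | ∃ g : Matrix n n ℝ, g.PosDef ∧ KN B a g = t} with hI
  have hbdd : BddBelow {t | ∃ g : Matrix n n ℝ, g.PosDef ∧ KN B a g = t} :=
    ⟨C, by rintro t ⟨g, hg, rfl⟩; exact hC g hg⟩
  have hne : {t | ∃ g : Matrix n n ℝ, g.PosDef ∧ KN B a g = t}.Nonempty :=
    ⟨_, 1, Matrix.PosDef.one, rfl⟩
  -- δ
  obtain ⟨δ, hδ, hδε⟩ : ∃ δ : ℝ, 0 < δ ∧
      (A ^ 2 / 9) * (4 * Fintype.card n * (3 / A * δ)) ≤ ε := by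
    refine ⟨ε / (A ^ 2 / 9 * (4 * Fintype.card n * (3 / A)) + 1), by positivity, ?_⟩
    have h0 : 0 ≤ A ^ 2 / 9 * (4 * Fintype.card n * (3 / A)) := by positivity
    have h1 : (A ^ 2 / 9) * (4 * Fintype.card n * (3 / A *
        (ε / (A ^ 2 / 9 * (4 * Fintype.card n * (3 / A)) + 1))))
        = ε * ((A ^ 2 / 9 * (4 * Fintype.card n * (3 / A))) /
          (A ^ 2 / 9 * (4 * Fintype.card n * (3 / A)) + 1)) := by ring
    rw [h1]
    refine mul_le_of_le_one_right hε.le ?_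
    rw [div_le_one (by positivity)]
    linarith
  obtain ⟨t, ⟨g, hg, rfl⟩, hgt⟩ := exists_lt_of_csInf_lt hne (lt_add_of_pos_right I hδ)
  have hK := posDef_KM ha hA hB hsp hg
  have hstep := KN_step ha hA hB hsp hn hg
  have hle : I ≤ KN B a (KM B a g)⁻¹ := csInf_le hbdd ⟨_, hK.inv, rfl⟩
  have hlog : -(Real.log g.det + Real.log (KM B a g).det) ≤ 3 / A * δ := by
    have h1 : -δ ≤ A / 3 * (Real.log g.det + Real.log (KM B a g).det) := by linarith
    have h2 : 3 / A * (-δ) ≤ 3 / A * (A / 3 * (Real.log g.det + Real.log (KM B a g).det)) :=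
      mul_le_mul_of_nonneg_left h1 (by positivity)
    have h3 : 3 / A * (A / 3 * (Real.log g.det + Real.log (KM B a g).det))
        = Real.log g.det + Real.log (KM B a g).det := by field_simp
    rw [h3] at h2
    linarith
  obtain ⟨S, hS, hSu⟩ := exists_factor hg
  refine ⟨S, hSu, ?_⟩
  -- M = S K Sᴴ
  set M : Matrix n n ℝ := S * KM B a g * Sᴴ with hM
  have hMsum : M = (3 / A) • ∑ i, a i • proj S (B i) := by
    rw [hM, KM, Matrix.mul_smul, Matrix.smul_mul, Matrix.mul_sum, Matrix.sum_mul]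
    congr 1
    refine Finset.sum_congr rfl fun i _ => ?_
    rw [Matrix.mul_smul, Matrix.smul_mul, hS]
    congr 1
    unfold proj
    simp only [Matrix.mul_assoc]
  have hMpd : M.PosDef := by
    have hinj : Function.Injective (Sᴴ).mulVec := by
      apply Matrix.mulVec_injective_of_isUnit
      rw [Matrix.isUnit_iff_isUnit_det, det_conjTranspose]
      simpa using hSu
    have := hK.conjTranspose_mul_mul_same hinj
    rwa [conjTranspose_conjTranspose] at this
  have hMtr : M.trace = Fintype.card n := by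
    rw [hMsum, trace_smul, trace_sum]
    have : ∀ i, (a i • proj S (B i)).trace = a i * c := by
      intro i
      rw [trace_smul, proj_trace hSu (hB i)]
      simp
    simp only [this]
    rw [← Finset.sum_mul, hn, ← hAdef, smul_eq_mul]
    push_cast
    field_simp
  have hMdet : Real.log M.det = Real.log g.det + Real.log (KM B a g).det := by
    have h1 : M.det = g.det * (KM B a g).det := by
      rw [hM, hS, det_mul, det_mul, det_mul]
      ring
    rw [h1, Real.log_mul hg.det_pos.ne' hK.det_pos.ne']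
  have h5 := trace_mul_self_le hMpd hMtr
  have h6 : (M * M).trace = (9 / A ^ 2) *
      ∑ i, ∑ j, a i * a j * (proj S (B i) * proj S (B j)).trace := by
    rw [hMsum, Matrix.smul_mul, Matrix.mul_smul, smul_smul, trace_smul, Matrix.sum_mul, trace_sum,
      smul_eq_mul]
    rw [show 3 / A * (3 / A) = 9 / A ^ 2 by field_simp; norm_num]
    congr 1
    refine Finset.sum_congr rfl fun i _ => ?_
    rw [Matrix.mul_sum, trace_sum]
    refine Finset.sum_congr rfl fun j _ => ?_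
    rw [Matrix.smul_mul, Matrix.mul_smul, smul_smul, trace_smul, smul_eq_mul]
  have h7 : ∑ i, ∑ j, a i * a j * (proj S (B i) * proj S (B j)).trace
      = A ^ 2 / 9 * (M * M).trace := by
    rw [h6]
    field_simp
  rw [h7]
  have h8 : A ^ 2 / 9 * (M * M).trace ≤ A ^ 2 / 9 *
      (Fintype.card n + 4 * Fintype.card n * (3 / A * δ)) := by
    refine mul_le_mul_of_nonneg_left (le_trans h5 ?_) (by positivity)
    rw [hMdet]
    have : 4 * (Fintype.card n : ℝ) * -(Real.log g.det + Real.log (KM B a g).det) ≤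
        4 * Fintype.card n * (3 / A * δ) :=
      mul_le_mul_of_nonneg_left hlog (by positivity)
    linarith
  refine le_trans h8 ?_
  rw [mul_add]
  have h9 : A ^ 2 / 9 * (Fintype.card n : ℝ) = A ^ 2 / 3 * c := by
    rw [hn]; push_cast; ring
  rw [h9]
  linarith

end scale

end Pool.Agent.Helper35.BM
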