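import Pool.Agent.Helper35.BM.BMY

set_option autoImplicit false

/-! Project BM (MP_872606_gt): rank three arrangements of subspaces of codimension `c`. -/

open Finset

namespace Pool.Agent.Helper35.BM

variable {ι V : Type*} [AddCommGroup V] [Module ℝ V]

/-- A rank three `c`-arrangement: `L i` are linear subspaces of dimension `2 c` of a real vector
space of dimension `3 c`; any two of them meet in a subspace of dimension `c`, which is contained
in every further one or meets it in `0` only. -/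
structure IsArr (c : ℕ) (L : ι → Submodule ℝ V) : Prop where
  pos : 0 < c
  dim : Module.finrank ℝ V = 3 * c
  dim_line : ∀ i, Module.finrank ℝ (L i) = 2 * c
  dim_point : ∀ i j, i ≠ j → Module.finrank ℝ (L i ⊓ L j : Submodule ℝ V) = c
  third : ∀ i j k, i ≠ j → L i ⊓ L j ≤ L k ∨ Disjoint (L i ⊓ L j) (L k)

variable [Fintype ι] [DecidableEq ι]

open Classical in
/-- The set of all `k` such that the line `L k` contains the point `L i ⊓ L j`. -/
noncomputable def pt (L : ι → Submodule ℝ V) (i j : ι) : Finset ι := {k | L i ⊓ L j ≤ L k}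

/-- The points of intersection of the lines `L i`; each is given as the set of the indices of the
lines through it. -/
noncomputable def points (L : ι → Submodule ℝ V) : Finset (Finset ι) :=
  (univ : Finset ι).offDiag.image fun q => pt L q.1 q.2

theorem mem_pt {L : ι → Submodule ℝ V} {i j k : ι} : k ∈ pt L i j ↔ L i ⊓ L j ≤ L k := by
  classical
  simp [pt]

theorem mem_points {L : ι → Submodule ℝ V} {p : Finset ι} :
    p ∈ points L ↔ ∃ i j, i ≠ j ∧ pt L i j = p := by
  simp [points]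

variable {c : ℕ} {L : ι → Submodule ℝ V}

omit [Fintype ι] [DecidableEq ι] in
theorem IsArr.fin (h : IsArr c L) : FiniteDimensional ℝ V := by
  apply FiniteDimensional.of_finrank_pos
  rw [h.dim]
  have := h.pos
  omega

theorem IsArr.pt_eq (h : IsArr c L) {a b i j : ι} (hab : a ≠ b) (hij : i ≠ j)
    (hi : i ∈ pt L a b) (hj : j ∈ pt L a b) : L a ⊓ L b = L i ⊓ L j := by
  haveI := h.fin
  rw [mem_pt] at hi hj
  apply Submodule.eq_of_le_of_finrank_eq (le_inf hi hj)
  rw [h.dim_point a b hab, h.dim_point i j hij]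

theorem IsArr.linSp (h : IsArr c L) : LinSp (points L) where
  two := by
    intro p hp
    obtain ⟨i, j, hij, rfl⟩ := mem_points.1 hp
    exact Finset.one_lt_card.2 ⟨i, mem_pt.2 inf_le_left, j, mem_pt.2 inf_le_right, hij⟩
  ex := by
    intro i j hij
    exact ⟨pt L i j, mem_points.2 ⟨i, j, hij, rfl⟩, mem_pt.2 inf_le_left, mem_pt.2 inf_le_right⟩
  uniq := by
    intro p hp q hq i j hij hip hjp hiq hjq
    obtain ⟨a, b, hab, rfl⟩ := mem_points.1 hp
    obtain ⟨a', b', hab', rfl⟩ := mem_points.1 hq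
    have h1 := h.pt_eq hab hij hip hjp
    have h2 := h.pt_eq hab' hij hiq hjq
    ext k
    rw [mem_pt, mem_pt, h1, h2]

omit [Fintype ι] [DecidableEq ι] in
theorem IsArr.sup_eq_top (h : IsArr c L) {i j : ι} (hij : i ≠ j) : L i ⊔ L j = ⊤ := by
  haveI := h.fin
  apply Submodule.eq_top_of_finrank_eq
  have h1 := Submodule.finrank_sup_add_finrank_inf_eq (L i) (L j)
  rw [h.dim_point i j hij, h.dim_line, h.dim_line] at h1
  rw [h.dim]
  omega

omit [Fintype ι] [DecidableEq ι] in
theorem IsArr.sup_eq_top' (h : IsArr c L) {i j k : ι} (hij : i ≠ j)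
    (hk : Disjoint (L i ⊓ L j) (L k)) : (L i ⊓ L j) ⊔ L k = ⊤ := by
  haveI := h.fin
  apply Submodule.eq_top_of_finrank_eq
  have h1 := Submodule.finrank_sup_add_finrank_inf_eq (L i ⊓ L j) (L k)
  rw [disjoint_iff.1 hk, finrank_bot, h.dim_point i j hij, h.dim_line] at h1
  rw [h.dim]
  omega

omit [Fintype ι] [DecidableEq ι] in
theorem IsArr.finrank_ann (h : IsArr c L) (i : ι) :
    Module.finrank ℝ (L i).dualAnnihilator = c := by
  haveI := h.fin
  have h1 := Subspace.finrank_add_finrank_dualAnnihilator_eq (L i)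
  rw [h.dim_line, h.dim] at h1
  omega

omit [Fintype ι] [DecidableEq ι] in
theorem IsArr.disj (h : IsArr c L) {i j : ι} (hij : i ≠ j) :
    Disjoint (L i).dualAnnihilator (L j).dualAnnihilator := by
  rw [disjoint_iff, ← Submodule.dualAnnihilator_sup_eq, h.sup_eq_top hij,
    Submodule.dualAnnihilator_top]

omit [Fintype ι] [DecidableEq ι] in
theorem IsArr.ann_inf (h : IsArr c L) (i j : ι) :
    (L i ⊓ L j).dualAnnihilator = (L i).dualAnnihilator ⊔ (L j).dualAnnihilator := by
  haveI := h.fin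
  exact Subspace.dualAnnihilator_inf_eq (L i) (L j)

omit [Fintype ι] [DecidableEq ι] in
theorem IsArr.disj3 (h : IsArr c L) {i j k : ι} (hij : i ≠ j)
    (hk : Disjoint (L i ⊓ L j) (L k)) :
    Disjoint ((L i).dualAnnihilator ⊔ (L j).dualAnnihilator) (L k).dualAnnihilator := by
  rw [disjoint_iff, ← h.ann_inf, ← Submodule.dualAnnihilator_sup_eq, h.sup_eq_top' hij hk,
    Submodule.dualAnnihilator_top]

open Matrix

theorem exists_mul_of_cols {n m k : Type*} [Fintype n] [Fintype m] [Fintype k] [DecidableEq k]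
    (B : Matrix n m ℝ) (C : Matrix n k ℝ) (h : ∀ l : k, ∃ r : m → ℝ, B *ᵥ r = C.col l) :
    ∃ R : Matrix m k ℝ, C = B * R := by
  choose r hr using h
  refine ⟨Matrix.of fun a l => r l a, ?_⟩
  ext x l
  have := congrFun (hr l) x
  rw [Matrix.mul_apply]
  simp only [Matrix.of_apply]
  rw [Matrix.col_apply] at this
  rw [← this]
  rfl

/-- a family of subspaces as a family of matrices -/
theorem matArr_of_sub {W : Type*} [AddCommGroup W] [Module ℝ W] (hc : 0 < c)
    (hW : Module.finrank ℝ W = 3 * c) {N : ι → Submodule ℝ W}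
    (hN : ∀ i, Module.finrank ℝ (N i) = c) {P : Finset (Finset ι)} (hP : LinSp P)
    (hd : ∀ i j, i ≠ j → Disjoint (N i) (N j))
    (hlin : ∀ p ∈ P, ∀ i ∈ p, ∀ j ∈ p, i ≠ j → ∀ k ∈ p, N k ≤ N i ⊔ N j)
    (htri : ∀ p ∈ P, ∀ i ∈ p, ∀ j ∈ p, i ≠ j → ∀ k, k ∉ p → Disjoint (N i ⊔ N j) (N k)) :
    ∃ B : ι → Matrix (Fin (3 * c)) (Fin c) ℝ, MatArr c B P := by
  haveI : FiniteDimensional ℝ W := by
    apply FiniteDimensional.of_finrank_pos
    rw [hW]
    omega
  let b := Module.finBasisOfFinrankEq ℝ W hW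
  let b' := fun i : ι => Module.finBasisOfFinrankEq ℝ (N i) (hN i)
  let B : ι → Matrix (Fin (3 * c)) (Fin c) ℝ := fun i =>
    LinearMap.toMatrix (b' i) b (N i).subtype
  let φ : ∀ _ : ι, (Fin c → ℝ) → W := fun i v => ((b' i).equivFun.symm v : _)
  have hφmem : ∀ i v, φ i v ∈ N i := fun i v => Subtype.coe_prop _
  have hφ : ∀ i v, B i *ᵥ v = b.equivFun (φ i v) := by
    intro i v
    have h1 := LinearMap.toMatrix_mulVec_repr (b' i) b (N i).subtype
      ((b' i).equivFun.symm v)
    have h2 : ⇑((b' i).repr ((b' i).equivFun.symm v)) = v := by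
      have := (b' i).equivFun.apply_symm_apply v
      rwa [Module.Basis.equivFun_apply] at this
    rw [h2] at h1
    rw [Module.Basis.equivFun_apply]
    exact h1
  have hφ0 : ∀ i v, φ i v = 0 → v = 0 := by
    intro i v hv
    have h1 : (b' i).equivFun.symm v = 0 := Subtype.ext hv
    exact (LinearEquiv.map_eq_zero_iff _).1 h1
  have hφsurj : ∀ i, ∀ w ∈ N i, ∃ v, φ i v = w := by
    intro i w hw
    refine ⟨(b' i).equivFun ⟨w, hw⟩, ?_⟩
    change (((b' i).equivFun.symm ((b' i).equivFun ⟨w, hw⟩) : N i) : W) = w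
    rw [LinearEquiv.symm_apply_apply]
  have hinj_iff : ∀ {m : Type} [Fintype m] (C : Matrix (Fin (3 * c)) m ℝ),
      (∀ v, C *ᵥ v = 0 → v = 0) → Function.Injective C.mulVec := by
    intro m _ C hC v w hvw
    have h1 : C *ᵥ (v - w) = 0 := by
      rw [Matrix.mulVec_sub, sub_eq_zero]
      exact hvw
    exact sub_eq_zero.1 (hC _ h1)
  refine ⟨B, ?_⟩
  constructor
  · exact hc
  · simp
  · exact hP
  · intro i
    apply hinj_iff
    intro v hv
    rw [hφ, LinearEquiv.map_eq_zero_iff] at hv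
    exact hφ0 i v hv
  · intro i j hij
    apply hinj_iff
    intro v hv
    rw [fromCols_mulVec, hφ, hφ, ← map_add, LinearEquiv.map_eq_zero_iff] at hv
    have h1 : φ i (v ∘ Sum.inl) = -φ j (v ∘ Sum.inr) := eq_neg_of_add_eq_zero_left hv
    have h2 : φ i (v ∘ Sum.inl) = 0 := by
      have := (Submodule.disjoint_def.1 (hd i j hij)) (φ i (v ∘ Sum.inl)) (hφmem i _)
      apply this
      rw [h1]
      exact Submodule.neg_mem _ (hφmem j _)
    have h3 : φ j (v ∘ Sum.inr) = 0 := by
      rw [h2, zero_add] at hv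
      exact hv
    have h4 := hφ0 _ _ h2
    have h5 := hφ0 _ _ h3
    funext l
    rcases l with l | l
    · exact congrFun h4 l
    · exact congrFun h5 l
  · intro p hp i hi j hj hij k hk
    have h2 := hlin p hp i hi j hj hij k hk
    apply exists_mul_of_cols
    intro l
    have h3 : (B k).col l = b.equivFun (φ k (Pi.single l 1)) := by
      rw [← hφ, Matrix.mulVec_single_one]
    obtain ⟨y, hy, w, hw, hyw⟩ := Submodule.mem_sup.1 (h2 (hφmem k (Pi.single l 1)))
    obtain ⟨v1, hv1⟩ := hφsurj i y hy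
    obtain ⟨v2, hv2⟩ := hφsurj j w hw
    refine ⟨Sum.elim v1 v2, ?_⟩
    rw [fromCols_mulVec_sumElim, hφ, hφ, ← map_add, hv1, hv2, hyw, h3]
  · intro p hp i hi j hj hij k hk
    have h3 := htri p hp i hi j hj hij k hk
    apply hinj_iff
    intro v hv
    rw [fromCols_mulVec, fromCols_mulVec, hφ, hφ, hφ, ← map_add, ← map_add,
      LinearEquiv.map_eq_zero_iff] at hv
    set v1 := (v ∘ Sum.inl) ∘ Sum.inl with hv1
    set v2 := (v ∘ Sum.inl) ∘ Sum.inr with hv2
    set v3 := v ∘ Sum.inr with hv3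
    have h4 : φ i v1 + φ j v2 = -φ k v3 := eq_neg_of_add_eq_zero_left hv
    have h5 : φ i v1 + φ j v2 = 0 := by
      refine (Submodule.disjoint_def.1 h3) _ ?_ ?_
      · exact Submodule.add_mem_sup (hφmem i _) (hφmem j _)
      · rw [h4]
        exact Submodule.neg_mem _ (hφmem k _)
    have h6 : φ k v3 = 0 := by
      rw [h5, zero_add] at hv
      exact hv
    have h7 : φ i v1 = 0 := by
      refine (Submodule.disjoint_def.1 (hd i j hij)) _ (hφmem i _) ?_
      rw [eq_neg_of_add_eq_zero_left h5]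
      exact Submodule.neg_mem _ (hφmem j _)
    have h8 : φ j v2 = 0 := by
      rw [h7, zero_add] at h5
      exact h5
    have e1 := hφ0 _ _ h7
    have e2 := hφ0 _ _ h8
    have e3 := hφ0 _ _ h6
    funext l
    rcases l with (l | l) | l
    · exact congrFun e1 l
    · exact congrFun e2 l
    · exact congrFun e3 l

/-- the arrangement as a family of matrices -/
theorem IsArr.matArr (h : IsArr c L) :
    ∃ B : ι → Matrix (Fin (3 * c)) (Fin c) ℝ, MatArr c B (points L) := by
  haveI := h.fin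
  refine matArr_of_sub (W := Module.Dual ℝ V) (N := fun i => (L i).dualAnnihilator) h.pos ?_
    h.finrank_ann h.linSp (fun i j hij => h.disj hij) ?_ ?_
  · rw [Subspace.dual_finrank_eq, h.dim]
  · intro p hp i hi j hj hij k hk
    obtain ⟨a, a', haa, rfl⟩ := mem_points.1 hp
    have h1 := h.pt_eq haa hij hi hj
    rw [mem_pt, h1] at hk
    rw [← h.ann_inf]
    exact Submodule.dualAnnihilator_anti hk
  · intro p hp i hi j hj hij k hk
    obtain ⟨a, a', haa, rfl⟩ := mem_points.1 hp
    have h1 := h.pt_eq haa hij hi hj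
    rw [mem_pt, h1] at hk
    exact h.disj3 hij ((h.third i j k hij).resolve_left hk)

/-- Orbifold Bogomolov-Miyaoka-Yau inequality for rank three `c`-arrangements. -/
theorem IsArr.bmy (h : IsArr c L) {B : Finset (Finset ι)} (hB : B ⊆ points L)
    (hB3 : ∀ p ∈ points L, 3 ≤ #p → p ∈ B) {x : ι → ℝ} (hx : ∀ i, 0 ≤ x i)
    (hx1 : ∀ i, x i ≤ 1) (hX : 3 ≤ ∑ i, x i) {z : Finset ι → ℝ}
    (hz : ∀ p ∈ B, 3 * ∑ i ∈ p, x i ≤ 2 * ∑ i, x i ∨ 2 ≤ ∑ i, x i - ∑ i ∈ p, x i + z p) :
    c1sq B x z ≤ 3 * c2 (points L) B x z := by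
  obtain ⟨M, hM⟩ := h.matArr
  refine h.linSp.bmy hB hB3 hx hx1 hX hz fun hl => ?_
  refine hM.main hx (by linarith) (fun i => ?_) hl hB
  have := hx1 i
  linarith

end Pool.Agent.Helper35.BM
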